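import Pool.Agent.helper37.NF.Spec

/-!
# Row BG2 of project NF (MP_7e34bc_co), second proof
-/

set_option autoImplicit false

namespace Pool.Agent.helper37.NF

open Finset Pool.Agent.NK

theorem BG2 (h1 : AVG_stmt) (h2 : BAS_stmt) (h3 : REC_stmt) : BG2_stmt := by
  intro n s hs hn
  have hrho : 0 < rho (s : ℝ) := by
    unfold rho
    positivity
  have hκ : ∀ a b : ℕ, a + b = 4 * (s + 1) →
      (a.choose 1 : ℝ) * (b.choose s : ℝ) ≤ 4 / rho (s : ℝ) * ((4 * (s + 1)).choose (1 + s) : ℝ) := by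
    intro a b hab
    have e1 := h2 a b 1 s le_rfl hs (by omega)
    have e4 : cc 1 = 4 := by unfold cc; norm_num
    have e2 : (a.choose 1 : ℝ) * (b.choose s : ℝ) ≤ 4 * (cc s : ℝ) := by
      rw [e4] at e1
      exact_mod_cast e1
    have e3 : ((4 * (s + 1)).choose (1 + s)) = cc (s + 1) := by
      unfold cc
      rw [add_comm 1 s]
    rw [e3, h3 s]
    have e5 : 4 / rho (s : ℝ) * (rho (s : ℝ) * (cc s : ℝ)) = 4 * (cc s : ℝ) := by
      field_simp
    rw [e5]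
    exact e2
  have hq : (n + 1) / (s + 1) ≤ n := by
    have : (n + 1) / (s + 1) ≤ (n + 1) / 2 := Nat.div_le_div_left (by omega) (by omega)
    omega
  have hA := h1 1 s (4 * (s + 1)) (4 / rho (s : ℝ)) le_rfl hs (by omega) hκ ((n + 1) / (s + 1)) (n - (n + 1) / (s + 1)) (by omega)
  have e6 : (n + 1) / (s + 1) + (n - (n + 1) / (s + 1)) = n := by omega
  rw [e6] at hA
  have hMV : (MV n (s + 1) : ℝ) ≤ 4 / rho (s : ℝ) * (n.choose (1 + s) : ℝ) := by
    unfold MV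
    rw [Nat.choose_one_right] at hA
    rw [Nat.add_sub_cancel]
    push_cast
    exact hA
  have c1 : (n.choose (s + 2) : ℝ) * ((s : ℝ) + 2) = (n.choose (1 + s) : ℝ) * ((n : ℝ) - s - 1) := by
    have := Nat.choose_succ_right_eq n (s + 1)
    have h' : ((n.choose (s + 1 + 1) * (s + 1 + 1) : ℕ) : ℝ) = ((n.choose (s + 1) * (n - (s + 1)) : ℕ) : ℝ) := by rw [this]
    rw [Nat.cast_mul, Nat.cast_mul, Nat.cast_sub (by omega)] at h'
    push_cast at h'
    rw [add_comm 1 s]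
    have e7 : s + 1 + 1 = s + 2 := rfl
    rw [e7] at h'
    linarith
  have c2 : (n.choose (s + 3) : ℝ) * ((s : ℝ) + 3) = (n.choose (s + 2) : ℝ) * ((n : ℝ) - s - 2) := by
    have := Nat.choose_succ_right_eq n (s + 2)
    have h' : ((n.choose (s + 2 + 1) * (s + 2 + 1) : ℕ) : ℝ) = ((n.choose (s + 2) * (n - (s + 2)) : ℕ) : ℝ) := by rw [this]
    rw [Nat.cast_mul, Nat.cast_mul, Nat.cast_sub (by omega)] at h'
    push_cast at h'
    have e7 : s + 2 + 1 = s + 3 := rfl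
    rw [e7] at h'
    linarith
  have hnR : 4 * ((s : ℝ) + 3) ≤ n := by exact_mod_cast hn
  have hs0 : (0 : ℝ) ≤ s := Nat.cast_nonneg s
  have hC0 : (0 : ℝ) ≤ (n.choose (1 + s) : ℝ) := Nat.cast_nonneg _
  have c3 : (n.choose (s + 3) : ℝ) * (((s : ℝ) + 3) * ((s : ℝ) + 2)) = (n.choose (1 + s) : ℝ) * (((n : ℝ) - s - 1) * ((n : ℝ) - s - 2)) := by
    calc (n.choose (s + 3) : ℝ) * (((s : ℝ) + 3) * ((s : ℝ) + 2)) = ((n.choose (s + 3) : ℝ) * ((s : ℝ) + 3)) * ((s : ℝ) + 2) := by ring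
      _ = ((n.choose (s + 2) : ℝ) * ((s : ℝ) + 2)) * ((n : ℝ) - s - 2) := by rw [c2]; ring
      _ = _ := by rw [c1]; ring
  have c4 : (3 * (s : ℝ) + 11) * (3 * (s : ℝ) + 10) ≤ ((n : ℝ) - s - 1) * ((n : ℝ) - s - 2) :=
    mul_le_mul (by linarith) (by linarith) (by positivity) (by linarith)
  have c5 : (n.choose (1 + s) : ℝ) ≤
      (((s : ℝ) + 3) * ((s : ℝ) + 2) / ((3 * (s : ℝ) + 11) * (3 * (s : ℝ) + 10))) * (n.choose (s + 3) : ℝ) := by
    rw [div_mul_eq_mul_div, le_div_iff₀ (by positivity), mul_comm (((s : ℝ) + 3) * ((s : ℝ) + 2)), c3]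
    exact mul_le_mul_of_nonneg_left c4 hC0
  calc (MV n (s + 1) : ℝ) ≤ 4 / rho (s : ℝ) * (n.choose (1 + s) : ℝ) := hMV
    _ ≤ 4 / rho (s : ℝ) * ((((s : ℝ) + 3) * ((s : ℝ) + 2) / ((3 * (s : ℝ) + 11) * (3 * (s : ℝ) + 10))) * (n.choose (s + 3) : ℝ)) :=
      mul_le_mul_of_nonneg_left c5 (by positivity)
    _ = _ := by ring

end Pool.Agent.helper37.NF
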